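import Pool.Agent.Helper79.HajnalFinal

/-!
# The relation `λ⁺ ↛ (λ⁺, ω + 2)²` for `λ` of countable cofinality

The partition relation for ordinals of the problem, with colourings of the two-element subsets and order
types of subsets.  The case `λ = ℵ_ω`, with GCH, is the question of the problem (`q1`).
-/

set_option autoImplicit false

namespace Pool.Agent.Results.MP_74a51f_lc.CountableCofinality

open Cardinal Ordinal

/-- `κ → (α, β)²`: for every colouring of the two-element subsets of (the initial ordinal of) `κ` with the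
colours `0`, `1` there is a subset of order type `α` all of whose two-element subsets have colour `0`, or
a subset of order type `β` all of whose two-element subsets have colour `1`. -/
def Arrow (κ : Cardinal.{0}) (α β : Ordinal.{0}) : Prop :=
  ∀ f : {e : Finset κ.ord.ToType // e.card = 2} → Fin 2,
    (∃ X : Set κ.ord.ToType, typeLT X = α ∧
      ∀ e : {e : Finset κ.ord.ToType // e.card = 2}, (e.1 : Set κ.ord.ToType) ⊆ X → f e = 0) ∨
    ∃ Y : Set κ.ord.ToType, typeLT Y = β ∧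
      ∀ e : {e : Finset κ.ord.ToType // e.card = 2}, (e.1 : Set κ.ord.ToType) ⊆ Y → f e = 1

/-- A cofinal sequence of infinite cardinals below an uncountable cardinal of countable cofinality. -/
theorem exists_seq (lam : Cardinal.{0}) (h0 : ℵ₀ < lam) (hcf : lam.ord.cof = ℵ₀) :
    ∃ ls : ℕ → Cardinal.{0}, (∀ n, ℵ₀ ≤ ls n) ∧ (∀ n, ls n < lam) ∧
      ∀ c, c < lam → ∃ n, c ≤ ls n := by
  obtain ⟨ι, f, hf, hι⟩ := exists_lsub_cof lam.ord
  rw [hcf] at hι
  have hι' : Nonempty (ℕ ≃ ι) := by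
    rw [← Cardinal.mk_nat] at hι
    exact ⟨(Cardinal.eq.1 hι).some.symm⟩
  obtain ⟨e⟩ := hι'
  have hlt : ∀ i, f i < lam.ord := fun i => hf ▸ lt_lsub f i
  refine ⟨fun n => max ℵ₀ (f (e n)).card, fun n => le_max_left _ _, fun n => ?_, fun c hc => ?_⟩
  · exact max_lt h0 (Cardinal.lt_ord.1 (hlt _))
  · have h1 : c.ord < lam.ord := Cardinal.ord_lt_ord.2 hc
    rw [← hf, lt_lsub_iff] at h1
    obtain ⟨i, hi⟩ := h1
    refine ⟨e.symm i, ?_⟩
    show c ≤ max ℵ₀ (f (e (e.symm i))).card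
    rw [e.apply_symm_apply]
    refine le_trans ?_ (le_max_right _ _)
    have h2 := Ordinal.card_le_card hi
    rwa [Cardinal.card_ord] at h2

/-- **The theorem.** If `λ` is an uncountable cardinal of countable cofinality, `μ ^ ℵ₀ ≤ λ` for every
`μ < λ`, and `2 ^ λ = λ⁺`, then `λ⁺ ↛ (λ⁺, ω + 2)²`. -/
theorem result (lam : Cardinal.{0}) (h0 : ℵ₀ < lam) (hcf : lam.ord.cof = ℵ₀)
    (hpow : ∀ μ : Cardinal.{0}, μ < lam → μ ^ ℵ₀ ≤ lam) (h2 : 2 ^ lam = Order.succ lam) :
    ¬ Arrow (Order.succ lam) (Order.succ lam).ord (ω + 2) := by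
  classical
  have hlam : ℵ₀ ≤ lam := h0.le
  set V : Type := (Order.succ lam).ord.ToType with hVdef
  have hVc' : Cardinal.mk V = Order.succ lam := Cardinal.mk_ord_toType _
  have hW : Cardinal.mk lam.ord.ToType = lam := Cardinal.mk_ord_toType _
  obtain ⟨ls, hls, hls0, hls2⟩ := exists_seq lam h0 hcf
  obtain ⟨E, hE1, hE2⟩ := Pool.Agent.Helper79.Hajnal.main (V := V) (W := lam.ord.ToType) lam hlam hW
    (by rw [hVc', h2])
    (by
      rw [hVc', Order.succ_le_iff]
      have h3 := Cardinal.lt_power_cof_ord hlam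
      rw [hcf] at h3
      refine h3.trans_eq ?_
      rw [← hW]
      simp)
    (fun ξ => by
      have h1 : Cardinal.mk (Set.Iio ξ) < Order.succ lam := Cardinal.mk_Iio_toType_ord_lt ξ
      exact Order.lt_succ_iff.1 h1)
    ls hls (fun n => hpow _ (hls0 n)) hls2
  intro hA
  let f : {e : Finset V // e.card = 2} → Fin 2 := fun e =>
    if ∃ y ∈ e.1, ∃ ξ ∈ e.1, y < ξ ∧ E y ξ then 1 else 0
  have hpair : ∀ y ξ : V, y < ξ → ∃ e : {e : Finset V // e.card = 2}, e.1 = {y, ξ} := fun y ξ h =>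
    ⟨⟨{y, ξ}, Finset.card_pair h.ne⟩, rfl⟩
  rcases hA f with ⟨X, hX, hX0⟩ | ⟨Y, hY, hY1⟩
  · have hXc : lam < Cardinal.mk X := by
      have h3 : (typeLT X).card = Cardinal.mk X := Ordinal.card_type _
      rw [← h3, hX, Cardinal.card_ord]
      exact Order.lt_succ lam
    obtain ⟨y, hy, ξ, hξ, hyξ, hE⟩ := hE1 X hXc
    obtain ⟨e, he⟩ := hpair y ξ hyξ
    have h3 := hX0 e (by
      rw [he]
      intro a ha
      simp only [Finset.coe_insert, Finset.coe_singleton, Set.mem_insert_iff,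
        Set.mem_singleton_iff] at ha
      rcases ha with rfl | rfl
      · exact hy
      · exact hξ)
    have h4 : f e = 1 := by
      have h5 : ∃ y ∈ e.1, ∃ ξ ∈ e.1, y < ξ ∧ E y ξ :=
        ⟨y, by rw [he]; simp, ξ, by rw [he]; simp, hyξ, hE⟩
      exact if_pos h5
    rw [h4] at h3
    exact absurd h3 (by decide)
  · have hedge : ∀ y ∈ Y, ∀ ξ ∈ Y, y < ξ → E y ξ := by
      intro y hy ξ hξ hyξ
      obtain ⟨e, he⟩ := hpair y ξ hyξ
      have h3 := hY1 e (by
        rw [he]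
        intro a ha
        simp only [Finset.coe_insert, Finset.coe_singleton, Set.mem_insert_iff,
          Set.mem_singleton_iff] at ha
        rcases ha with rfl | rfl
        · exact hy
        · exact hξ)
      by_contra hcon
      have h4 : f e = 0 := by
        refine if_neg ?_
        rintro ⟨a, ha, b, hb, hab, hE⟩
        rw [he] at ha hb
        simp only [Finset.mem_insert, Finset.mem_singleton] at ha hb
        rcases ha with rfl | rfl <;> rcases hb with rfl | rfl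
        · exact lt_irrefl _ hab
        · exact hcon hE
        · exact lt_asymm hyξ hab
        · exact lt_irrefl _ hab
      rw [h4] at h3
      exact absurd h3 (by decide)
    have hlt : ∀ o : Ordinal.{0}, o < ω + 2 → o ∈ Set.Iio (typeLT Y) := by
      intro o ho
      rw [hY]
      exact ho
    let g : (o : Ordinal.{0}) → o < ω + 2 → Y := fun o ho =>
      Ordinal.enum (fun a b : Y => a < b) ⟨o, hlt o ho⟩
    have hg : ∀ (o o' : Ordinal.{0}) (ho : o < ω + 2) (ho' : o' < ω + 2), o < o' →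
        (g o ho).1 < (g o' ho').1 := by
      intro o o' ho ho' h
      have h3 := (Ordinal.enum_lt_enum (r := fun a b : Y => a < b) (o₁ := ⟨o, hlt o ho⟩)
        (o₂ := ⟨o', hlt o' ho'⟩)).2 h
      exact h3
    have hn : ∀ n : ℕ, ((n : ℕ) : Ordinal.{0}) < ω + 2 := fun n =>
      (Ordinal.natCast_lt_omega0 n).trans_le le_self_add
    have hw : (ω : Ordinal.{0}) < ω + 1 := lt_add_one _
    have hw1 : (ω : Ordinal.{0}) + 1 < ω + 2 := by
      rw [← one_add_one_eq_two, ← add_assoc]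
      exact lt_add_one _
    have hw0 : (ω : Ordinal.{0}) < ω + 2 := hw.trans hw1
    apply hE2
    refine ⟨fun k => (g k (hn k)).1, (g ω hw0).1, (g (ω + 1) hw1).1, ?_, ?_, ?_, ?_⟩
    · exact hg _ _ hw0 hw1 hw
    · intro k l hkl
      exact hedge _ (g k (hn k)).2 _ (g l (hn l)).2 (hg _ _ (hn k) (hn l) (Nat.cast_lt.2 hkl))
    · intro k
      exact hedge _ (g k (hn k)).2 _ (g ω hw0).2 (hg _ _ (hn k) hw0 (Ordinal.natCast_lt_omega0 k))
    · intro k
      exact hedge _ (g k (hn k)).2 _ (g (ω + 1) hw1).2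
        (hg _ _ (hn k) hw1 ((Ordinal.natCast_lt_omega0 k).trans hw))

/-- The question of the problem: under GCH, `ℵ_{ω+1} ↛ (ℵ_{ω+1}, ω + 2)²`. -/
theorem q1 (gch : ∀ μ : Cardinal.{0}, ℵ₀ ≤ μ → 2 ^ μ = Order.succ μ) :
    ¬ Arrow (ℵ_ (ω + 1)) (ℵ_ (ω + 1)).ord (ω + 2) := by
  have h1 : ℵ_ (ω + 1) = Order.succ (ℵ_ ω) := (Cardinal.succ_aleph _).symm
  rw [h1]
  refine result (ℵ_ ω) ?_ ?_ ?_ (gch _ (Cardinal.aleph0_le_aleph _))
  · rw [← Cardinal.aleph_zero, Cardinal.aleph_lt_aleph]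
    exact Ordinal.omega0_pos
  · rw [Cardinal.ord_aleph, Ordinal.cof_omega Ordinal.isSuccLimit_omega0, Ordinal.cof_omega0]
  · intro μ hμ
    obtain ⟨n, hn⟩ := Pool.Agent.Helper79.Hajnal.le_aleph_nat hμ
    have h3 : ℵ₀ ≤ ℵ_ (n : Ordinal.{0}) := Cardinal.aleph0_le_aleph _
    calc μ ^ ℵ₀ ≤ (ℵ_ (n : Ordinal.{0})) ^ ℵ₀ := Cardinal.power_le_power_right hn
      _ ≤ (ℵ_ (n : Ordinal.{0})) ^ (ℵ_ (n : Ordinal.{0})) :=
        Cardinal.power_le_power_left (Cardinal.aleph0_pos.trans_le h3).ne' h3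
      _ = 2 ^ (ℵ_ (n : Ordinal.{0})) := Cardinal.power_self_eq h3
      _ = Order.succ (ℵ_ (n : Ordinal.{0})) := gch _ h3
      _ ≤ ℵ_ ω := Order.succ_le_of_lt (Pool.Agent.Helper79.Hajnal.aleph_nat_lt n)

end Pool.Agent.Results.MP_74a51f_lc.CountableCofinality
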